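import Pool.Agent.helper94.SCT.Spec

/-!
# Project SCT: NEAR (the mean value of the Dirichlet polynomial over a set of small measure)

Vaughan's identity (VAW) bounds the polynomial by `O(log² x)` bilinear blocks; every block is of type I (TON) or of
type II (TTW), or vanishes.
-/

set_option autoImplicit false

namespace Pool.Agent.SCT

open Finset ArithmeticFunction MeasureTheory
open Pool.Agent.CH (nit eU)
open Pool.Agent.helper78.ED (wg SS)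
open Pool.Agent.helper85.BVP (beta)

private theorem NEAR_cont (g : ℝ → ℝ) (X : ℝ) (M K : ℕ) (a b : ℕ → ℂ) :
    Continuous fun t : ℝ => ‖B2 g X M K a b t‖ := by
  unfold B2
  refine Continuous.norm ?_
  refine continuous_finsetSum _ fun m _ => continuous_finsetSum _ fun k _ => ?_
  exact continuous_const.mul (nu_cont _)

private theorem NEAR_int (g : ℝ → ℝ) (X : ℝ) (M K : ℕ) (a b : ℕ → ℂ) {E : Set ℝ} {u v : ℝ}
    (hE : E ⊆ Set.Icc u v) : Integrable (fun t : ℝ => ‖B2 g X M K a b t‖) (volume.restrict E) :=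
  ((NEAR_cont g X M K a b).continuousOn.integrableOn_compact isCompact_Icc).mono_set hE

private theorem NEAR_add3 {μ : Measure ℝ} {f₁ f₂ f₃ : ℝ → ℝ} (h₁ : Integrable f₁ μ) (h₂ : Integrable f₂ μ)
    (h₃ : Integrable f₃ μ) :
    ∫ t, (f₁ t + f₂ t + f₃ t) ∂μ = (∫ t, f₁ t ∂μ) + (∫ t, f₂ t ∂μ) + ∫ t, f₃ t ∂μ := by
  have h12 : Integrable (fun t => f₁ t + f₂ t) μ := h₁.add h₂
  rw [integral_add h12 h₃, integral_add h₁ h₂]

private theorem NEAR_zl (g : ℝ → ℝ) (X : ℝ) (M K : ℕ) (a b : ℕ → ℂ) (h : ∀ m ∈ Ico M (2 * M), a m = 0)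
    (E : Set ℝ) : ∫ t in E, ‖B2 g X M K a b t‖ = 0 := by
  have h1 : ∀ t, ‖B2 g X M K a b t‖ = 0 := by
    intro t
    rw [norm_eq_zero]
    unfold B2
    refine Finset.sum_eq_zero fun m hm => Finset.sum_eq_zero fun k _ => ?_
    rw [h m hm]
    ring
  simp only [h1, integral_zero]

private theorem NEAR_zr (g : ℝ → ℝ) (X : ℝ) (M K : ℕ) (a b : ℕ → ℂ) (h : ∀ k ∈ Ico K (2 * K), b k = 0)
    (E : Set ℝ) : ∫ t in E, ‖B2 g X M K a b t‖ = 0 := by
  have h1 : ∀ t, ‖B2 g X M K a b t‖ = 0 := by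
    intro t
    rw [norm_eq_zero]
    unfold B2
    refine Finset.sum_eq_zero fun m _ => Finset.sum_eq_zero fun k hk => ?_
    rw [h k hk]
    ring
  simp only [h1, integral_zero]

private theorem NEAR_logb {x m : ℕ} (hx : 1 ≤ x) (hm : 1 ≤ m) (h : m ≤ 64 * x ^ 2) (hL : 5 ≤ Real.log x) :
    Real.log m ≤ 3 * Real.log x := by
  have hx0 : (0 : ℝ) < x := by exact_mod_cast hx
  have hm0 : (0 : ℝ) < m := by exact_mod_cast hm
  have h1 : (m : ℝ) ≤ 64 * (x : ℝ) ^ 2 := by exact_mod_cast h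
  have h2 : Real.log m ≤ Real.log (64 * (x : ℝ) ^ 2) := Real.log_le_log hm0 h1
  have h3 : Real.log (64 * (x : ℝ) ^ 2) = 6 * Real.log 2 + 2 * Real.log x := by
    rw [Real.log_mul (by norm_num) (by positivity), Real.log_pow]
    have h4 : (64 : ℝ) = 2 ^ 6 := by norm_num
    rw [h4, Real.log_pow]
    push_cast
    ring
  have h5 := Real.log_two_lt_d9
  linarith

private theorem NEAR_w {g : ℝ → ℝ} {x : ℕ} {E : Set ℝ} {C₁ C₂ C₃ : ℝ} (hx : 1 ≤ x) (hL : 5 ≤ Real.log x)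
    (hL3 : 64 * C₃ ≤ Real.log x) (hC₁ : 0 < C₁) (hC₂ : 0 < C₂) (hC₃ : 0 < C₃)
    (hTON : ∀ (D K h : ℕ) (a : ℕ → ℂ), 1 ≤ D → 1 ≤ K → (D : ℝ) ≤ (x : ℝ) ^ (2 / 3 : ℝ) →
      D * K ≤ 64 * x ^ 2 → h ≤ 1 → (∀ d ∈ Ico D (2 * D), ‖a d‖ ≤ Real.log x ^ 4) →
      ∫ t in E, ‖B2 g ((x : ℝ) ^ 2) D K a (fun k => (Real.log k : ℂ) ^ h) t‖ ≤
        C₁ * (x : ℝ) ^ 2 * Real.log x ^ (4 + 3))
    (hTTW : ∀ (M K : ℕ) (a b : ℕ → ℂ), (x : ℝ) ^ (2 / 3 : ℝ) ≤ 8 * M →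
      (x : ℝ) ^ (2 / 3 : ℝ) ≤ 8 * K → M * K ≤ 64 * x ^ 2 →
      ∑ m ∈ Ico M (2 * M), ‖a m‖ ^ 2 ≤ M * Real.log x ^ 4 → ∑ k ∈ Ico K (2 * K), ‖b k‖ ^ 2 ≤ K * Real.log x ^ 4 →
      ∫ t in E, ‖B2 g ((x : ℝ) ^ 2) M K a b t‖ ≤ C₂ * (x : ℝ) ^ 2 * Real.log x ^ (4 + 1))
    (hCOF : (∀ d : ℕ, 1 ≤ d → |eU (Ux x) d| ≤ Real.log d) ∧ (∀ d : ℕ, (Ux x) ^ 2 < d → eU (Ux x) d = 0) ∧
      (∀ k : ℕ, 1 ≤ k → k ≤ Ux x → beta (Ux x) k = 0) ∧
      (∀ M : ℕ, 1 ≤ M → ∑ m ∈ Ico M (2 * M), vonMangoldt m ^ 2 ≤ C₃ * M * (1 + Real.log M)) ∧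
      ∀ K : ℕ, 1 ≤ K → ∑ k ∈ Ico K (2 * K), beta (Ux x) k ^ 2 ≤ C₃ * K * (1 + Real.log K) ^ 3)
    {M K : ℕ} (hM : 1 ≤ M) (hK : 1 ≤ K) (h1 : x ^ 2 ≤ 2 * (M * K)) (h2 : M * K ≤ 64 * x ^ 2) :
    (∫ t in E, ‖B2 g ((x : ℝ) ^ 2) M K (cmu (Ux x)) (fun k => (Real.log k : ℂ) ^ 1) t‖) ≤
      (C₁ + C₂) * (x : ℝ) ^ 2 * Real.log x ^ 7 ∧
    (∫ t in E, ‖B2 g ((x : ℝ) ^ 2) M K (ceU (Ux x)) (fun k => (Real.log k : ℂ) ^ 0) t‖) ≤
      (C₁ + C₂) * (x : ℝ) ^ 2 * Real.log x ^ 7 ∧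
    (∫ t in E, ‖B2 g ((x : ℝ) ^ 2) M K (cLa (Ux x)) (cbe (Ux x)) t‖) ≤
      (C₁ + C₂) * (x : ℝ) ^ 2 * Real.log x ^ 7 := by
  obtain ⟨hc1, hc2, hc3, hc4, hc5⟩ := hCOF
  set L := Real.log x with hLdef
  set U := Ux x with hU
  have hx0 : (0 : ℝ) < x := by exact_mod_cast hx
  have hL0 : (0 : ℝ) < L := by linarith
  have hL1 : (1 : ℝ) ≤ L := by linarith
  have hX : (0 : ℝ) < (x : ℝ) ^ 2 := by positivity
  have hM0 : (0 : ℝ) < M := by exact_mod_cast hM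
  have hK0 : (0 : ℝ) < K := by exact_mod_cast hK
  have hM64 : M ≤ 64 * x ^ 2 := (Nat.le_mul_of_pos_right M hK).trans h2
  have hK64 : K ≤ 64 * x ^ 2 := (Nat.le_mul_of_pos_left K hM).trans h2
  have hpos : 0 ≤ (C₁ + C₂) * (x : ℝ) ^ 2 * L ^ 7 := by positivity
  have hB1 : C₁ * (x : ℝ) ^ 2 * L ^ (4 + 3) ≤ (C₁ + C₂) * (x : ℝ) ^ 2 * L ^ 7 := by
    have h3 : L ^ (4 + 3) = L ^ 7 := by norm_num
    rw [h3]
    have h4 : 0 < C₂ * (x : ℝ) ^ 2 * L ^ 7 := by positivity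
    nlinarith
  have hB2 : C₂ * (x : ℝ) ^ 2 * L ^ (4 + 1) ≤ (C₁ + C₂) * (x : ℝ) ^ 2 * L ^ 7 := by
    have h3 : L ^ (4 + 1) ≤ L ^ 7 := pow_le_pow_right₀ hL1 (by norm_num)
    have h4 : 0 < C₁ * (x : ℝ) ^ 2 * L ^ 7 := by positivity
    have h5 : C₂ * (x : ℝ) ^ 2 * L ^ (4 + 1) ≤ C₂ * (x : ℝ) ^ 2 * L ^ 7 :=
      mul_le_mul_of_nonneg_left h3 (by positivity)
    nlinarith
  have hU23 : (U : ℝ) ≤ (x : ℝ) ^ (2 / 3 : ℝ) := by
    rw [hU]
    exact Nat.floor_le (by positivity)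
  have hU23' : (x : ℝ) ^ (2 / 3 : ℝ) < U + 1 := by
    rw [hU]
    exact Nat.lt_floor_add_one _
  have hlogM : Real.log M ≤ 3 * L := NEAR_logb hx hM hM64 hL
  have hlogK : Real.log K ≤ 3 * L := NEAR_logb hx hK hK64 hL
  have hlM0 : 0 ≤ Real.log M := Real.log_natCast_nonneg M
  have hlK0 : 0 ≤ Real.log K := Real.log_natCast_nonneg K
  have hlog2 := Real.log_two_lt_d9
  have hL44 : 16 * L ^ 2 ≤ L ^ 4 := by
    have h3 : (16 : ℝ) ≤ L ^ 2 := by nlinarith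
    have h4 : (0 : ℝ) ≤ L ^ 2 := by positivity
    nlinarith
  -- coefficients ceU
  have hce : ∀ d ∈ Ico M (2 * M), ‖ceU U d‖ ≤ 4 * L := by
    intro d hd
    obtain ⟨hd1, hd2⟩ := mem_Ico.1 hd
    have hd0 : 1 ≤ d := hM.trans hd1
    have hd00 : (0 : ℝ) < d := by exact_mod_cast hd0
    have h3 : ‖ceU U d‖ = |eU U d| := by
      unfold ceU
      rw [Complex.norm_real, Real.norm_eq_abs]
    have h4 : Real.log d ≤ Real.log (2 * (M : ℝ)) := Real.log_le_log hd00 (by exact_mod_cast hd2.le)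
    have h5 : Real.log (2 * (M : ℝ)) = Real.log 2 + Real.log M := Real.log_mul (by norm_num) (by positivity)
    rw [h3]
    have h6 := hc1 d hd0
    linarith
  refine ⟨?_, ?_, ?_⟩
  · by_cases hMU : M ≤ U
    · refine (hTON M K 1 (cmu U) hM hK ?_ h2 le_rfl ?_).trans hB1
      · exact le_trans (by exact_mod_cast hMU) hU23
      · intro d _
        have h3 : ‖cmu U d‖ ≤ 1 := by
          unfold cmu
          split_ifs
          · rw [Complex.norm_intCast]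
            exact_mod_cast abs_moebius_le_one
          · simp
        exact h3.trans (one_le_pow₀ hL1)
    · rw [NEAR_zl]
      · exact hpos
      · intro m hm
        unfold cmu
        rw [if_neg]
        have := (mem_Ico.1 hm).1
        omega
  · by_cases hMU : M ≤ U
    · refine (hTON M K 0 (ceU U) hM hK ?_ h2 (by norm_num) ?_).trans hB1
      · exact le_trans (by exact_mod_cast hMU) hU23
      · intro d hd
        refine (hce d hd).trans ?_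
        have h3 : 4 * L ≤ L ^ 2 * 1 := by nlinarith
        have h4 : L ^ 2 * 1 ≤ 16 * L ^ 2 := by nlinarith
        linarith
    · by_cases hMU2 : U ^ 2 < M
      · rw [NEAR_zl]
        · exact hpos
        · intro m hm
          unfold ceU
          rw [hc2 m (lt_of_lt_of_le hMU2 (mem_Ico.1 hm).1)]
          simp
      · refine (hTTW M K (ceU U) (fun k => (Real.log k : ℂ) ^ 0) ?_ ?_ h2 ?_ ?_).trans hB2
        · have h3 : (U : ℝ) + 1 ≤ M := by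
            have : U + 1 ≤ M := by omega
            exact_mod_cast this
          linarith
        · have h3 : (M : ℝ) ≤ (x : ℝ) ^ (2 / 3 : ℝ) * (x : ℝ) ^ (2 / 3 : ℝ) := by
            have h4 : (M : ℝ) ≤ (U : ℝ) ^ 2 := by
              have : M ≤ U ^ 2 := by omega
              exact_mod_cast this
            have h5 : (U : ℝ) ^ 2 ≤ ((x : ℝ) ^ (2 / 3 : ℝ)) ^ 2 := pow_le_pow_left₀ (by positivity) hU23 2
            calc (M : ℝ) ≤ (U : ℝ) ^ 2 := h4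
              _ ≤ ((x : ℝ) ^ (2 / 3 : ℝ)) ^ 2 := h5
              _ = _ := by ring
          have h4 : (x : ℝ) ^ 2 ≤ 2 * (M * K) := by exact_mod_cast h1
          have h5 : (x : ℝ) ^ 2 = (x : ℝ) ^ (2 / 3 : ℝ) * (x : ℝ) ^ (2 / 3 : ℝ) * (x : ℝ) ^ (2 / 3 : ℝ) := by
            rw [← Real.rpow_add hx0, ← Real.rpow_add hx0, ← Real.rpow_natCast]
            norm_num
          have hP : (0 : ℝ) < (x : ℝ) ^ (2 / 3 : ℝ) := by positivity
          set P := (x : ℝ) ^ (2 / 3 : ℝ) with hPdef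
          have h6 : P * P * P ≤ 2 * (P * P * K) := by
            calc P * P * P = (x : ℝ) ^ 2 := h5.symm
              _ ≤ 2 * (M * K) := h4
              _ ≤ 2 * (P * P * K) := by
                have := mul_le_mul_of_nonneg_right h3 hK0.le
                linarith
          have h7 : P ≤ 2 * K := by
            have h8 : P * P * P ≤ P * P * (2 * K) := by linarith
            exact le_of_mul_le_mul_left h8 (by positivity)
          linarith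
        · calc ∑ m ∈ Ico M (2 * M), ‖ceU U m‖ ^ 2 ≤ ∑ m ∈ Ico M (2 * M), L ^ 4 := by
                refine Finset.sum_le_sum fun m hm => ?_
                have h3 := hce m hm
                have h4 : ‖ceU U m‖ ^ 2 ≤ (4 * L) ^ 2 := pow_le_pow_left₀ (norm_nonneg _) h3 2
                have h5 : (4 * L) ^ 2 = 16 * L ^ 2 := by ring
                linarith
            _ = M * L ^ 4 := by
                rw [Finset.sum_const, Nat.card_Ico, nsmul_eq_mul]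
                congr 2
                omega
        · calc ∑ k ∈ Ico K (2 * K), ‖(Real.log k : ℂ) ^ 0‖ ^ 2 ≤ ∑ k ∈ Ico K (2 * K), L ^ 4 := by
                refine Finset.sum_le_sum fun k _ => ?_
                rw [pow_zero, norm_one, one_pow]
                exact one_le_pow₀ hL1
            _ = K * L ^ 4 := by
                rw [Finset.sum_const, Nat.card_Ico, nsmul_eq_mul]
                congr 2
                omega
  · by_cases hMU : 2 * M ≤ U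
    · rw [NEAR_zl]
      · exact hpos
      · intro m hm
        unfold cLa
        rw [if_neg]
        have := (mem_Ico.1 hm).2
        omega
    by_cases hKU : 2 * K ≤ U
    · rw [NEAR_zr]
      · exact hpos
      · intro k hk
        obtain ⟨hk1, hk2⟩ := mem_Ico.1 hk
        unfold cbe
        rw [hc3 k (hK.trans hk1) (by omega)]
        simp
    refine (hTTW M K (cLa U) (cbe U) ?_ ?_ h2 ?_ ?_).trans hB2
    · have h3 : (U : ℝ) + 1 ≤ 2 * M := by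
        have : U + 1 ≤ 2 * M := by omega
        exact_mod_cast this
      linarith
    · have h3 : (U : ℝ) + 1 ≤ 2 * K := by
        have : U + 1 ≤ 2 * K := by omega
        exact_mod_cast this
      linarith
    · calc ∑ m ∈ Ico M (2 * M), ‖cLa U m‖ ^ 2 ≤ ∑ m ∈ Ico M (2 * M), vonMangoldt m ^ 2 := by
            refine Finset.sum_le_sum fun m _ => ?_
            unfold cLa
            split_ifs
            · rw [Complex.norm_real, Real.norm_eq_abs, sq_abs]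
            · rw [norm_zero, zero_pow two_ne_zero]
              exact sq_nonneg _
        _ ≤ C₃ * M * (1 + Real.log M) := hc4 M hM
        _ ≤ C₃ * M * (4 * L) := by
            refine mul_le_mul_of_nonneg_left ?_ (by positivity)
            linarith
        _ = M * (4 * C₃ * L) := by ring
        _ ≤ M * L ^ 4 := by
            refine mul_le_mul_of_nonneg_left ?_ hM0.le
            have h3 : 4 * C₃ * L ≤ L * L := by
              refine mul_le_mul_of_nonneg_right ?_ hL0.le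
              linarith
            have h4 : L * L ≤ L ^ 4 := by
              have : L * L = L ^ 2 := by ring
              rw [this]
              exact pow_le_pow_right₀ hL1 (by norm_num)
            linarith
    · calc ∑ k ∈ Ico K (2 * K), ‖cbe U k‖ ^ 2 ≤ ∑ k ∈ Ico K (2 * K), beta U k ^ 2 := by
            refine Finset.sum_le_sum fun k _ => ?_
            unfold cbe
            rw [Complex.norm_real, Real.norm_eq_abs, sq_abs]
        _ ≤ C₃ * K * (1 + Real.log K) ^ 3 := hc5 K hK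
        _ ≤ C₃ * K * (4 * L) ^ 3 := by
            refine mul_le_mul_of_nonneg_left ?_ (by positivity)
            refine pow_le_pow_left₀ (by linarith) ?_ 3
            linarith
        _ = K * (64 * C₃ * L ^ 3) := by ring
        _ ≤ K * L ^ 4 := by
            refine mul_le_mul_of_nonneg_left ?_ hK0.le
            have h3 : 64 * C₃ * L ^ 3 ≤ L * L ^ 3 := mul_le_mul_of_nonneg_right hL3 (by positivity)
            have h4 : L * L ^ 3 = L ^ 4 := by ring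
            linarith

theorem NEAR (hVAW : VAW_stmt) (hTON : TON_stmt) (hTTW : TTW_stmt) (hCOF : COF_stmt) : NEAR_stmt := by
  intro g hg hs
  obtain ⟨x₁, hv⟩ := hVAW g hg hs
  obtain ⟨C₃, hC₃, hcof⟩ := hCOF
  refine ⟨9, fun ε hε hε2 => ?_⟩
  obtain ⟨δ₁, C₁, x₂, hδ₁, hC₁, hton⟩ := hTON g hg ε 4 hε hε2
  obtain ⟨δ₂, C₂, x₃, hδ₂, hC₂, httw⟩ := hTTW g hg ε 4 hε hε2
  refine ⟨min δ₁ δ₂, 48 * (C₁ + C₂), max (max x₁ x₂) (max x₃ (⌈Real.exp (5 + 64 * C₃)⌉₊)), lt_min hδ₁ hδ₂,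
    by positivity, fun x hx E hE hsub hvol => ?_⟩
  have hx1 : x₁ ≤ x := le_trans (le_trans (le_max_left _ _) (le_max_left _ _)) hx
  have hx2 : x₂ ≤ x := le_trans (le_trans (le_max_right _ _) (le_max_left _ _)) hx
  have hx3 : x₃ ≤ x := le_trans (le_trans (le_max_left _ _) (le_max_right _ _)) hx
  have hx4 : ⌈Real.exp (5 + 64 * C₃)⌉₊ ≤ x := le_trans (le_trans (le_max_right _ _) (le_max_right _ _)) hx
  have hx5 : Real.exp (5 + 64 * C₃) ≤ x := (Nat.le_ceil _).trans (by exact_mod_cast hx4)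
  have hx0 : (0 : ℝ) < x := (Real.exp_pos _).trans_le hx5
  have hxn : 1 ≤ x := by exact_mod_cast hx0
  have hx10 : (1 : ℝ) ≤ x := by exact_mod_cast hxn
  have hL : 5 + 64 * C₃ ≤ Real.log x := by
    rw [Real.le_log_iff_exp_le hx0]
    exact hx5
  have hL5 : 5 ≤ Real.log x := by linarith
  have hL64 : 64 * C₃ ≤ Real.log x := by linarith
  have hU1 : 1 ≤ Ux x := by
    unfold Ux
    rw [Nat.one_le_floor_iff]
    exact Real.one_le_rpow hx10 (by norm_num)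
  have hvol1 : volume E ≤ ENNReal.ofReal ((x : ℝ) ^ δ₁) :=
    hvol.trans (ENNReal.ofReal_le_ofReal (Real.rpow_le_rpow_of_exponent_le hx10 (min_le_left _ _)))
  have hvol2 : volume E ≤ ENNReal.ofReal ((x : ℝ) ^ δ₂) :=
    hvol.trans (ENNReal.ofReal_le_ofReal (Real.rpow_le_rpow_of_exponent_le hx10 (min_le_right _ _)))
  have hsub0 : E ⊆ Set.Icc 0 ((x : ℝ) ^ (4 / 3 - ε)) :=
    hsub.trans (Set.Icc_subset_Icc_left (by norm_num))
  have hton' := hton x hx2 E hE hsub hvol1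
  have httw' := httw x hx3 E hE hsub0 hvol2
  obtain ⟨hcard, hDL⟩ := hv x hx1
  set L := Real.log x with hLdef
  have hL0 : 0 < L := by linarith
  -- integral of the bound
  have h1 : ∫ t in E, ‖DL g ((x : ℝ) ^ 2) t‖ ≤ ∫ t in E, ∑ w ∈ PQ x,
      (‖B2 g ((x : ℝ) ^ 2) (2 ^ w.1) (2 ^ w.2) (cmu (Ux x)) (fun k => (Real.log k : ℂ) ^ 1) t‖ +
       ‖B2 g ((x : ℝ) ^ 2) (2 ^ w.1) (2 ^ w.2) (ceU (Ux x)) (fun k => (Real.log k : ℂ) ^ 0) t‖ +
       ‖B2 g ((x : ℝ) ^ 2) (2 ^ w.1) (2 ^ w.2) (cLa (Ux x)) (cbe (Ux x)) t‖) := by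
    refine integral_mono_of_nonneg (Filter.Eventually.of_forall fun t => norm_nonneg _) ?_
      (Filter.Eventually.of_forall fun t => hDL t)
    refine integrable_finsetSum _ fun w _ => ?_
    exact ((NEAR_int _ _ _ _ _ _ hsub).add (NEAR_int _ _ _ _ _ _ hsub)).add (NEAR_int _ _ _ _ _ _ hsub)
  have h2 : ∫ t in E, ∑ w ∈ PQ x,
      (‖B2 g ((x : ℝ) ^ 2) (2 ^ w.1) (2 ^ w.2) (cmu (Ux x)) (fun k => (Real.log k : ℂ) ^ 1) t‖ +
       ‖B2 g ((x : ℝ) ^ 2) (2 ^ w.1) (2 ^ w.2) (ceU (Ux x)) (fun k => (Real.log k : ℂ) ^ 0) t‖ +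
       ‖B2 g ((x : ℝ) ^ 2) (2 ^ w.1) (2 ^ w.2) (cLa (Ux x)) (cbe (Ux x)) t‖) =
      ∑ w ∈ PQ x, ((∫ t in E, ‖B2 g ((x : ℝ) ^ 2) (2 ^ w.1) (2 ^ w.2) (cmu (Ux x)) (fun k => (Real.log k : ℂ) ^ 1) t‖) +
       (∫ t in E, ‖B2 g ((x : ℝ) ^ 2) (2 ^ w.1) (2 ^ w.2) (ceU (Ux x)) (fun k => (Real.log k : ℂ) ^ 0) t‖) +
       (∫ t in E, ‖B2 g ((x : ℝ) ^ 2) (2 ^ w.1) (2 ^ w.2) (cLa (Ux x)) (cbe (Ux x)) t‖)) := by
    rw [integral_finsetSum]
    · refine Finset.sum_congr rfl fun w _ => ?_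
      exact NEAR_add3 (NEAR_int _ _ _ _ _ _ hsub) (NEAR_int _ _ _ _ _ _ hsub) (NEAR_int _ _ _ _ _ _ hsub)
    · intro w _
      exact ((NEAR_int _ _ _ _ _ _ hsub).add (NEAR_int _ _ _ _ _ _ hsub)).add (NEAR_int _ _ _ _ _ _ hsub)
  have h3 : ∀ w ∈ PQ x,
      ((∫ t in E, ‖B2 g ((x : ℝ) ^ 2) (2 ^ w.1) (2 ^ w.2) (cmu (Ux x)) (fun k => (Real.log k : ℂ) ^ 1) t‖) +
       (∫ t in E, ‖B2 g ((x : ℝ) ^ 2) (2 ^ w.1) (2 ^ w.2) (ceU (Ux x)) (fun k => (Real.log k : ℂ) ^ 0) t‖) +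
       (∫ t in E, ‖B2 g ((x : ℝ) ^ 2) (2 ^ w.1) (2 ^ w.2) (cLa (Ux x)) (cbe (Ux x)) t‖)) ≤
      3 * ((C₁ + C₂) * (x : ℝ) ^ 2 * L ^ 7) := by
    intro w hw
    have hw' : x ^ 2 ≤ 2 * 2 ^ (w.1 + w.2) ∧ 2 ^ (w.1 + w.2) ≤ 64 * x ^ 2 := by
      unfold PQ at hw
      exact (mem_filter.1 hw).2
    rw [pow_add] at hw'
    obtain ⟨i1, i2, i3⟩ := NEAR_w (g := g) (E := E) hxn hL5 hL64 hC₁ hC₂ hC₃ hton' httw' (hcof (Ux x) hU1)
      (Nat.one_le_two_pow : 1 ≤ 2 ^ w.1) (Nat.one_le_two_pow : 1 ≤ 2 ^ w.2) hw'.1 hw'.2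
    linarith
  calc ∫ t in E, ‖DL g ((x : ℝ) ^ 2) t‖ ≤ _ := h1
    _ = _ := h2
    _ ≤ ∑ w ∈ PQ x, 3 * ((C₁ + C₂) * (x : ℝ) ^ 2 * L ^ 7) := Finset.sum_le_sum h3
    _ = #(PQ x) * (3 * ((C₁ + C₂) * (x : ℝ) ^ 2 * L ^ 7)) := by
        rw [Finset.sum_const, nsmul_eq_mul]
    _ ≤ (16 * L ^ 2) * (3 * ((C₁ + C₂) * (x : ℝ) ^ 2 * L ^ 7)) :=
        mul_le_mul_of_nonneg_right hcard (by positivity)
    _ = 48 * (C₁ + C₂) * (x : ℝ) ^ 2 * L ^ 9 := by ring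

end Pool.Agent.SCT
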